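import Mathlib
import Pool.Agent.W_MP_be8317_an.Mean

namespace Pool.Agent.Results.MP_be8317_an.OperatorAlzer

variable {H : Type*} [NormedAddCommGroup H] [InnerProductSpace ℂ H] [CompleteSpace H]

/-- `Φ_{1/m}(X, Y) = Y^{1/2} (Y^{-1/2} X Y^{-1/2})^{1/m} Y^{1/2}`; real powers are given by the
continuous functional calculus. -/
noncomputable def Phi (m : ℕ) (X Y : H →L[ℂ] H) : H →L[ℂ] H :=
  CFC.rpow Y (1 / 2) *
    CFC.rpow (CFC.rpow Y (-(1 / 2)) * X * CFC.rpow Y (-(1 / 2))) (1 / (m : ℝ)) *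
    CFC.rpow Y (1 / 2)

/-- The geometric operator mean: `G_1(X_1) = X_1` and
`G_m(X_1, ..., X_m) = Φ_{1/m}(X_1, G_{m-1}(X_2, ..., X_m))` for `m ≥ 2`
(the value for `m = 0` is a placeholder). -/
noncomputable def geoMean : (m : ℕ) → (Fin m → (H →L[ℂ] H)) → (H →L[ℂ] H)
  | 0, _ => 1
  | 1, X => X 0
  | (m + 2), X => Phi (m + 2) (X 0) (geoMean (m + 1) (fun i => X i.succ))

/-- The arithmetic mean. -/
noncomputable def ariMean (m : ℕ) (X : Fin m → (H →L[ℂ] H)) : H →L[ℂ] H :=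
  (m : ℝ)⁻¹ • ∑ j, X j

open Pool.Agent.W_MP_be8317_an

lemma geoMean_eq (m : ℕ) (X : Fin m → (H →L[ℂ] H)) : geoMean m X = GM m X := by
  induction m using Nat.strong_induction_on with
  | _ m ih =>
    match m, X with
    | 0, _ => rfl
    | 1, _ => rfl
    | (m + 2), X =>
      have h := ih (m + 1) (by omega) (fun i => X i.succ)
      unfold geoMean GM
      rw [h]
      rfl

/-- **Operator version of Alzer's inequality.** -/
theorem result (n : ℕ) (hn : 2 ≤ n) (A : Fin n → (H →L[ℂ] H))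
    (hpos : ∀ j, (A j).IsPositive) (hinv : ∀ j, IsUnit (A j))
    (hhalf : ∀ j, ((1 / 2 : ℝ) • (1 : H →L[ℂ] H) - A j).IsPositive) :
    ((ariMean n A - geoMean n A) -
      (ariMean n (fun j => 1 - A j) - geoMean n (fun j => 1 - A j))).IsPositive := by
  obtain ⟨m, rfl⟩ : ∃ m, n = m + 1 := ⟨n - 1, by omega⟩
  have h := alzer m A (fun i => ⟨(ContinuousLinearMap.nonneg_iff_isPositive _).mpr (hpos i), hinv i⟩)
    (fun i => by
      rw [ContinuousLinearMap.le_def, Algebra.algebraMap_eq_smul_one]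
      exact hhalf i)
  rw [ContinuousLinearMap.nonneg_iff_isPositive] at h
  rw [geoMean_eq, geoMean_eq]
  exact h

end Pool.Agent.Results.MP_be8317_an.OperatorAlzer
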